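import Mathlib

open Polynomial

namespace Pool.Agent.Results.MP_308f9e_co.TwoTriangles

/-- rank of an element: the length of a longest chain ending at it -/
noncomputable def rk {P : Type} [PartialOrder P] (y : P) : ℕ := (Order.height y).toNat

/-- flag f-vector of `P` with a top adjoined: chains of elements of `P` other than `⊥`
whose set of ranks is `T` -/
noncomputable def flagF (P : Type) [PartialOrder P] [OrderBot P] (T : Finset ℕ) : ℤ :=
  Nat.card {C : Finset P // IsChain (· ≤ ·) (C : Set P) ∧ ⊥ ∉ C ∧ C.image rk = T}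

/-- flag h-vector -/
noncomputable def flagH (P : Type) [PartialOrder P] [OrderBot P] (S : Finset ℕ) : ℤ :=
  ∑ T ∈ S.powerset, (-1) ^ (S \ T).card * flagF P T

/-- augmented Chow polynomial -/
noncomputable def augChow (P : Type) [PartialOrder P] [OrderBot P] (n : ℕ) : ℤ[X] :=
  ∑ S ∈ (Finset.Icc 1 n).powerset with (∀ i ∈ S, i + 1 ∉ S),
    C (flagH P S) * X ^ S.card * (1 + X) ^ (n + 1 - 2 * S.card)

abbrev Q : Type := {s : Finset (Fin 6) // s ⊆ {0, 1, 2} ∨ s ⊆ {3, 4, 5}}

instance : OrderBot Q where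
  bot := ⟨∅, Or.inl (Finset.empty_subset _)⟩
  bot_le := fun _ => Finset.empty_subset _

theorem bot_val : (⊥ : Q).1 = ∅ := rfl

theorem height_eq (y : Q) : Order.height y = (y.1.card : ℕ∞) := by
  apply le_antisymm
  · have h := Order.height_le_height_apply_of_strictMono (fun s : Q => s.1.card)
      (fun a b hab => Finset.card_lt_card hab) y
    simpa using h
  · obtain ⟨k, hk⟩ : ∃ k, y.1.card = k := ⟨_, rfl⟩
    induction k generalizing y with
    | zero => simp [hk]
    | succ k ih =>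
      obtain ⟨a, ha⟩ : y.1.Nonempty := Finset.card_pos.1 (by omega)
      let z : Q := ⟨y.1.erase a, y.2.imp (fun h => (Finset.erase_subset _ _).trans h)
        (fun h => (Finset.erase_subset _ _).trans h)⟩
      have hz : z.1.card = k := by simp [z, Finset.card_erase_of_mem ha, hk]
      have hlt : z < y := Finset.erase_ssubset ha
      have h1 := Order.height_add_one_le hlt
      have h2 := ih z hz
      rw [hz] at h2
      rw [hk]
      calc ((k + 1 : ℕ) : ℕ∞) = (k : ℕ∞) + 1 := by push_cast; rfl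
        _ ≤ Order.height z + 1 := by gcongr
        _ ≤ _ := h1

theorem rk_eq (y : Q) : rk y = y.1.card := by simp [rk, height_eq]

set_option synthInstance.maxSize 2000 in
theorem flagF_eq (T : Finset ℕ) : flagF Q T =
    (((Finset.univ : Finset Q).powersetCard T.card).filter
      (fun C : Finset Q => (∀ a ∈ C, ∀ b ∈ C, a.1 ⊆ b.1 ∨ b.1 ⊆ a.1) ∧ (∀ a ∈ C, a.1 ≠ ∅) ∧
        C.image (fun y : Q => y.1.card) = T)).card := by
  unfold flagF
  congr 1
  rw [← Nat.card_eq_finsetCard]
  apply Nat.card_congr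
  apply Equiv.subtypeEquivRight
  intro C
  have hr : (rk : Q → ℕ) = fun y => y.1.card := funext rk_eq
  rw [hr]
  simp only [Finset.mem_filter, Finset.mem_powersetCard, Finset.subset_univ, true_and]
  constructor
  · rintro ⟨h1, h2, h3⟩
    have hc : ∀ a ∈ C, ∀ b ∈ C, a.1 ⊆ b.1 ∨ b.1 ⊆ a.1 := fun a ha b hb => by
      by_cases hab : a = b
      · subst hab; exact Or.inl subset_rfl
      · exact h1 ha hb hab
    refine ⟨?_, hc, ?_, h3⟩
    · rw [← h3]
      symm
      apply Finset.card_image_of_injOn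
      intro a ha b hb hab
      apply Subtype.ext
      rcases hc a ha b hb with h | h
      · exact Finset.eq_of_subset_of_card_le h (le_of_eq hab.symm)
      · exact (Finset.eq_of_subset_of_card_le h (le_of_eq hab)).symm
    · intro a ha h
      apply h2
      have : a = ⊥ := Subtype.ext h
      rwa [← this]
  · rintro ⟨-, h1, h2, h3⟩
    exact ⟨fun a ha b hb _ => h1 a ha b hb, fun h => h2 _ h rfl, h3⟩

theorem f0 : flagF Q ∅ = 1 := by rw [flagF_eq]; decide +kernel
theorem f1 : flagF Q {1} = 6 := by rw [flagF_eq]; decide +kernel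
theorem f2 : flagF Q {2} = 6 := by rw [flagF_eq]; decide +kernel
theorem f3 : flagF Q {3} = 2 := by rw [flagF_eq]; decide +kernel
theorem f13 : flagF Q {1, 3} = 6 := by rw [flagF_eq]; decide +kernel

theorem h0 : flagH Q ∅ = 1 := by simp [flagH, f0]
theorem hs (a : ℕ) : flagH Q {a} = flagF Q {a} - 1 := by
  have : ({a} : Finset ℕ).powerset = {∅, {a}} := by
    ext; simp [Finset.subset_singleton_iff]
  rw [flagH, this, Finset.sum_pair (by simp)]
  simp [f0]; ring
theorem h13 : flagH Q {1, 3} = -1 := by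
  have : ({1, 3} : Finset ℕ).powerset = {∅, {1}, {3}, {1, 3}} := by decide
  rw [flagH, this, Finset.sum_insert (by decide), Finset.sum_insert (by decide),
    Finset.sum_pair (by decide), f0, f1, f3, f13]
  decide

theorem aug_eq : augChow Q 3 = X ^ 4 + 15 * X ^ 3 + 27 * X ^ 2 + 15 * X + 1 := by
  have : ((Finset.Icc 1 3).powerset.filter (fun S : Finset ℕ => ∀ i ∈ S, i + 1 ∉ S))
      = {∅, {1}, {2}, {3}, {1, 3}} := by decide
  rw [augChow, this, Finset.sum_insert (by decide), Finset.sum_insert (by decide),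
    Finset.sum_insert (by decide), Finset.sum_pair (by decide), h0, hs, hs, hs, h13, f1, f2, f3]
  have : ({1, 3} : Finset ℕ).card = 2 := by decide
  simp [this]
  ring

theorem iso (t : Finset (Fin 6)) (ht : t ⊆ {0, 1, 2} ∨ t ⊆ {3, 4, 5}) (h3 : t.card = 3) :
    Nonempty (Set.Iic (⟨t, ht⟩ : Q) ≃o Finset (Fin 3)) := by
  let e : Fin 3 ↪o Fin 6 := t.orderEmbOfFin h3
  have hm : ∀ s : Finset (Fin 3), s.map e.toEmbedding ⊆ t := by
    intro s x hx
    obtain ⟨a, -, rfl⟩ := Finset.mem_map.1 hx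
    exact t.orderEmbOfFin_mem h3 a
  let g : Finset (Fin 3) ↪o Set.Iic (⟨t, ht⟩ : Q) :=
    OrderEmbedding.ofMapLEIff
      (fun s => ⟨⟨s.map e.toEmbedding, ht.imp (fun h => (hm s).trans h) (fun h => (hm s).trans h)⟩,
        hm s⟩)
      (fun a b => by
        change a.map e.toEmbedding ⊆ b.map e.toEmbedding ↔ a ⊆ b
        exact Finset.map_subset_map)
  refine ⟨(RelIso.ofSurjective g ?_).symm⟩
  rintro ⟨⟨s, hs⟩, hst⟩
  have hst' : s ⊆ t := hst
  refine ⟨Finset.univ.filter (fun a => e a ∈ s), ?_⟩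
  apply Subtype.ext
  apply Subtype.ext
  change (Finset.univ.filter (fun a => e a ∈ s)).map e.toEmbedding = s
  ext x
  simp only [Finset.mem_map, Finset.mem_filter, Finset.mem_univ, true_and]
  constructor
  · rintro ⟨a, ha, rfl⟩; exact ha
  · intro hx
    have : x ∈ Set.range e := by
      rw [Finset.range_orderEmbOfFin]; exact hst' hx
    obtain ⟨a, rfl⟩ := this
    exact ⟨a, hx, rfl⟩

theorem result : ∃ (P : Type) (_ : Fintype P) (_ : PartialOrder P) (_ : OrderBot P) (n : ℕ),
    1 ≤ n ∧ (∀ m : P, IsMax m → Nonempty (Set.Iic m ≃o Finset (Fin n))) ∧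
    ∃ z : ℂ, z.im ≠ 0 ∧ aeval z (augChow P n) = 0 := by
  refine ⟨Q, inferInstance, inferInstance, inferInstance, 3, by norm_num, ?_, ?_⟩
  · rintro ⟨t, ht⟩ hm
    apply iso
    rcases ht with h | h
    · have := hm (b := ⟨{0, 1, 2}, Or.inl subset_rfl⟩) h
      have h2 : t = {0, 1, 2} := subset_antisymm h this
      rw [h2]; decide
    · have := hm (b := ⟨{3, 4, 5}, Or.inr subset_rfl⟩) h
      have h2 : t = {3, 4, 5} := subset_antisymm h this
      rw [h2]; decide
  · rw [aug_eq]
    set s : ℝ := Real.sqrt 125 with hsdef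
    have hs2 : s ^ 2 = 125 := Real.sq_sqrt (by norm_num)
    have hs0 : 11 < s := by
      rw [hsdef]; exact Real.lt_sqrt_of_sq_lt (by norm_num)
    have hs1 : s < 12 := by
      rw [hsdef]; exact (Real.sqrt_lt' (by norm_num)).2 (by norm_num)
    set y : ℝ := (-15 + s) / 2 with hy
    have hy2 : y ^ 2 + 15 * y + 25 = 0 := by rw [hy]; nlinarith
    have hpos : 0 < 4 - y ^ 2 := by nlinarith
    set w : ℝ := Real.sqrt (4 - y ^ 2) with hw
    have hw2 : w ^ 2 = 4 - y ^ 2 := Real.sq_sqrt hpos.le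
    have hw0 : 0 < w := Real.sqrt_pos.2 hpos
    refine ⟨(y / 2 : ℝ) + (w / 2 : ℝ) * Complex.I, by simp; positivity, ?_⟩
    set z : ℂ := (y / 2 : ℝ) + (w / 2 : ℝ) * Complex.I with hz
    have hw2' : (w : ℂ) ^ 2 = 4 - (y : ℂ) ^ 2 := by exact_mod_cast hw2
    have hy2' : (y : ℂ) ^ 2 + 15 * y + 25 = 0 := by exact_mod_cast hy2
    have hq : z ^ 2 - y * z + 1 = 0 := by
      rw [hz]; push_cast
      linear_combination (-(1 : ℂ) / 4) * hw2' + ((w : ℂ) ^ 2 / 4) * Complex.I_sq
    simp only [map_add, map_mul, map_pow, aeval_X, map_one, map_ofNat]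
    linear_combination (z ^ 2 + (15 + y) * z + 1) * hq + z ^ 2 * hy2'

end Pool.Agent.Results.MP_308f9e_co.TwoTriangles
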